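import Mathlib
import Pool.Agent.Y6.H.Stm2

/-!
# HR-DILM: dilation, random part (helper917)
-/

open Set Filter Topology MeasureTheory

set_option autoImplicit false

namespace Pool.Agent.Y917.HR.DILM

open Pool.Agent.Y6.M (Z3 len nsq Md br sgz)
open Pool.Agent.Y6.F (ln Xm Ym)
open Pool.Agent.Y6.H

instance unif_prob : IsProbabilityMeasure unif := by
  constructor
  rw [unif, Measure.smul_apply, Measure.restrict_apply_univ, Real.volume_Icc]
  have e : (1 : ℝ) - -1 = 2 := by norm_num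
  rw [e, smul_eq_mul, ENNReal.ofReal_ofNat]
  exact ENNReal.inv_mul_cancel (by norm_num) (by norm_num)

theorem br_br (i : Md) : br (br i) = i := by
  rcases i with ⟨⟨k, hk⟩, s⟩
  simp [br]

theorem sgz_neg (k : Z3) : sgz (-k) = - sgz k := by
  unfold sgz
  simp only [Pi.neg_apply, ne_eq, neg_eq_zero, Int.sign_neg]
  split_ifs <;> rfl

theorem sign_pm {a : ℤ} (ha : a ≠ 0) : a.sign = 1 ∨ a.sign = -1 := by
  rcases lt_or_gt_of_ne ha with h | h
  · exact Or.inr (Int.sign_eq_neg_one_of_neg h)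
  · exact Or.inl (Int.sign_eq_one_of_pos h)

theorem sgz_pm (k : Z3) (hk : k ≠ 0) : sgz k = 1 ∨ sgz k = -1 := by
  unfold sgz
  split_ifs with h0 h1
  · exact sign_pm h0
  · exact sign_pm h1
  · apply sign_pm
    intro h2
    apply hk
    push Not at h0 h1
    funext j
    fin_cases j
    · exact h0
    · exact h1
    · exact h2

theorem sgz_dil (L : ℕ) (hL : L ≠ 0) (i : Md) : sgz (dil L hL i).1.1 = sgz i.1.1 := by
  have hLz : (L : ℤ) ≠ 0 := by exact_mod_cast hL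
  have hs : (L : ℤ).sign = 1 := Int.sign_eq_one_of_pos (by positivity)
  unfold sgz
  simp only [dil, ne_eq, mul_eq_zero, hLz, false_or, Int.sign_mul, hs, one_mul]

theorem ln_dil (L : ℕ) (hL : L ≠ 0) (i : Md) : ln (dil L hL i) = L * ln i := by
  unfold ln len
  have e : nsq (dil L hL i).1.1 = (L : ℤ) ^ 2 * nsq i.1.1 := by
    unfold nsq
    rw [Finset.mul_sum]
    refine Finset.sum_congr rfl fun j _ => ?_
    simp only [dil]
    ring
  rw [e]
  push_cast
  rw [Real.sqrt_mul (by positivity), Real.sqrt_sq (by positivity)]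

theorem ln_br (i : Md) : ln (br i) = ln i := by
  unfold ln len
  have e : nsq (br i).1.1 = nsq i.1.1 := by
    unfold nsq
    refine Finset.sum_congr rfl fun j _ => ?_
    simp only [br, Pi.neg_apply]
    ring
  rw [e]

theorem sgz_br (i : Md) : sgz (br i).1.1 = - sgz i.1.1 := sgz_neg i.1.1

theorem dil_br (L : ℕ) (hL : L ≠ 0) (i : Md) : dil L hL (br i) = br (dil L hL i) := by
  refine Prod.ext (Subtype.ext (funext fun j => ?_)) rfl
  show (L : ℤ) * (-i.1.1) j = -((L : ℤ) * i.1.1 j)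
  rw [Pi.neg_apply]
  ring

theorem dil_inj (L : ℕ) (hL : L ≠ 0) : Function.Injective (dil L hL) := by
  intro i j h
  have h1 : ∀ l, (L : ℤ) * i.1.1 l = (L : ℤ) * j.1.1 l := fun l =>
    congrFun (congrArg (fun a : Md => a.1.1) h) l
  have h2 : i.2 = j.2 := show (dil L hL i).2 = (dil L hL j).2 by rw [h]
  refine Prod.ext (Subtype.ext (funext fun l => ?_)) h2
  exact mul_left_cancel₀ (by exact_mod_cast hL) (h1 l)

theorem rp_dil (L : ℕ) (hL : L ≠ 0) (i : Md) : rp (dil L hL i) = dil L hL (rp i) := by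
  unfold rp
  rw [sgz_dil]
  split_ifs
  · rfl
  · exact (dil_br L hL i).symm

theorem rp_br (i : Md) : rp (br i) = rp i := by
  unfold rp
  rw [sgz_br]
  rcases sgz_pm i.1.1 i.1.2 with h | h
  · rw [h, if_neg (by norm_num), if_pos rfl, br_br]
  · rw [h, if_pos (by norm_num), if_neg (by norm_num)]

theorem Sp_br_of (i : Md) (h : Sp i) : Sp (br i) := by
  obtain ⟨n, h | h | h | h⟩ := h
  · exact ⟨n, Or.inr (Or.inl (by rw [h]))⟩
  · exact ⟨n, Or.inl (by rw [h, br_br])⟩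
  · exact ⟨n, Or.inr (Or.inr (Or.inr (by rw [h])))⟩
  · exact ⟨n, Or.inr (Or.inr (Or.inl (by rw [h, br_br])))⟩

theorem Sp_br (i : Md) : Sp (br i) ↔ Sp i :=
  ⟨fun h => by have := Sp_br_of _ h; rwa [br_br] at this, Sp_br_of i⟩

theorem ex_br (L : ℕ) (hL : L ≠ 0) (i : Md) :
    (∃ j, ¬ Sp j ∧ br i = dil L hL j) ↔ ∃ j, ¬ Sp j ∧ i = dil L hL j := by
  constructor
  · rintro ⟨j, hj, h⟩
    exact ⟨br j, fun h' => hj ((Sp_br j).1 h'), by rw [dil_br, ← h, br_br]⟩
  · rintro ⟨j, hj, h⟩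
    exact ⟨br j, fun h' => hj ((Sp_br j).1 h'), by rw [dil_br, ← h]⟩

theorem ex_dil (L : ℕ) (hL : L ≠ 0) (i : Md) :
    (∃ j, ¬ Sp j ∧ dil L hL i = dil L hL j) ↔ ¬ Sp i := by
  constructor
  · rintro ⟨j, hj, h⟩
    rwa [dil_inj L hL h]
  · exact fun h => ⟨i, h, rfl⟩

theorem ωL_odd (L : ℕ) (hL : L ≠ 0) (δ : ℝ) (ω₀ X : Md → ℝ) (h0 : ∀ i, ω₀ (br i) = -ω₀ i)
    (i : Md) : ωL L hL δ ω₀ X (br i) = - ωL L hL δ ω₀ X i := by
  classical
  unfold ωL
  rw [h0, ln_br, rp_br, sgz_br]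
  by_cases h : ∃ j, ¬ Sp j ∧ i = dil L hL j
  · rw [if_pos h, if_pos ((ex_br L hL i).2 h)]
    push_cast
    ring
  · rw [if_neg h, if_neg (fun h' => h ((ex_br L hL i).1 h'))]
    ring

theorem ωL_dil (L : ℕ) (hL : L ≠ 0) (δ : ℝ) (ω₀ X : Md → ℝ) (i : Md) :
    ωL L hL δ ω₀ X (dil L hL i) =
      ωX (δ * (L : ℝ) ^ 20) (fun i => ω₀ (dil L hL i)) (fun i => X (dil L hL i)) i := by
  classical
  unfold ωL ωX
  rw [ln_dil, rp_dil, sgz_dil]
  by_cases h : Sp i
  · rw [if_pos h, if_neg (fun h' => (ex_dil L hL i).1 h' h)]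
  · rw [if_neg h, if_pos ((ex_dil L hL i).2 h)]
    ring

theorem t_DILM : Pool.Agent.Y6.H.S_DILM := by
  intro hD hM L hL ω₀ hodd hsp δ hδ
  have hodd' : Odd0 fun i => ω₀ (dil L hL i) :=
    ⟨fun i => by
      show ω₀ (dil L hL (br i)) = -ω₀ (dil L hL i)
      rw [dil_br, hodd], fun i hi => hsp i hi⟩
  have hL0 : (0 : ℝ) < (L : ℝ) ^ 20 := by
    have : 0 < L := Nat.pos_of_ne_zero hL
    positivity
  have h := hM _ hodd' (δ * (L : ℝ) ^ 20) (mul_pos hδ hL0)
  have hmap : (Measure.infinitePi fun _ : Md => unif).map (fun X i => X (dil L hL i)) =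
      Measure.infinitePi fun _ : Md => unif :=
    Measure.map_infinitePi_infinitePi_of_inj (P := fun _ : Md => unif) (dil_inj L hL)
  rw [← hmap] at h
  have hmeas : Measurable (fun (X : Md → ℝ) (i : Md) => X (dil L hL i)) :=
    measurable_pi_lambda _ fun i => measurable_pi_apply _
  have h2 := ae_of_ae_map hmeas.aemeasurable h
  filter_upwards [h2] with X hX
  refine hD _ L hL (ωL_odd L hL δ ω₀ X hodd) ?_
  have e : (fun i => ωL L hL δ ω₀ X (dil L hL i)) =
      ωX (δ * (L : ℝ) ^ 20) (fun i => ω₀ (dil L hL i)) (fun i => X (dil L hL i)) :=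
    funext fun i => ωL_dil L hL δ ω₀ X i
  rw [e]
  exact hX

end Pool.Agent.Y917.HR.DILM
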